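import Mathlib

set_option autoImplicit false

open MeasureTheory Set
open scoped symmDiff ENNReal

namespace Pool.Agent.Helper890.Sec

/-- `V` is dense in the measure algebra of every finite measure. -/
def DenseSeq {X : Type} [MeasurableSpace X] (V : ℕ → Set X) : Prop :=
  (∀ n, MeasurableSet (V n)) ∧
    ∀ (m : Measure X), IsFiniteMeasure m → ∀ A : Set X, MeasurableSet A → ∀ ε : ℝ, 0 < ε →
      ∃ n, m (A ∆ V n) < ENNReal.ofReal ε

theorem exists_denseSeq (X : Type) [MeasurableSpace X] [StandardBorelSpace X] :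
    ∃ V : ℕ → Set X, DenseSeq V := by
  have hc : (generateSetAlgebra (MeasurableSpace.countableGeneratingSet X)).Countable :=
    countable_generateSetAlgebra (MeasurableSpace.countable_countableGeneratingSet)
  have hne : (generateSetAlgebra (MeasurableSpace.countableGeneratingSet X)).Nonempty :=
    ⟨∅, generateSetAlgebra.empty⟩
  obtain ⟨V, hV⟩ := hc.exists_eq_range hne
  have halg : IsSetAlgebra (generateSetAlgebra (MeasurableSpace.countableGeneratingSet X)) :=
    isSetAlgebra_generateSetAlgebra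
  have hgen : ‹MeasurableSpace X› = MeasurableSpace.generateFrom
      (generateSetAlgebra (MeasurableSpace.countableGeneratingSet X)) := by
    rw [generateFrom_generateSetAlgebra_eq, MeasurableSpace.generateFrom_countableGeneratingSet]
  have key : ∀ (m : Measure X), IsFiniteMeasure m →
      m.MeasureDense (generateSetAlgebra (MeasurableSpace.countableGeneratingSet X)) := by
    intro m hm
    exact Measure.MeasureDense.of_generateFrom_isSetAlgebra_finite m halg hgen
  refine ⟨V, ?_, ?_⟩
  · intro n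
    have h0 := (key 0 inferInstance).measurable
    refine h0 _ ?_
    rw [hV]
    exact ⟨n, rfl⟩
  · intro m hm A hA ε hε
    obtain ⟨t, ht, h⟩ := (key m hm).approx A hA (measure_ne_top m A) ε hε
    rw [hV] at ht
    obtain ⟨n, rfl⟩ := ht
    exact ⟨n, h⟩

variable {X : Type} [MeasurableSpace X]

theorem real_diff_le (m : Measure X) [IsFiniteMeasure m] (A B : Set X) (hA : MeasurableSet A)
    (hB : MeasurableSet B) :
    |m.real A - m.real B| ≤ m.real (A ∆ B) := by
  have s1 : A ⊆ B ∪ (A ∆ B) := by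
    intro x hx
    by_cases hxB : x ∈ B
    · exact Or.inl hxB
    · exact Or.inr (Or.inl ⟨hx, hxB⟩)
  have s2 : B ⊆ A ∪ (A ∆ B) := by
    intro x hx
    by_cases hxA : x ∈ A
    · exact Or.inl hxA
    · exact Or.inr (Or.inr ⟨hx, hxA⟩)
  have h1 : m.real A ≤ m.real B + m.real (A ∆ B) :=
    le_trans (measureReal_mono s1) (measureReal_union_le _ _)
  have h2 : m.real B ≤ m.real A + m.real (A ∆ B) :=
    le_trans (measureReal_mono s2) (measureReal_union_le _ _)
  rw [abs_le]
  constructor <;> linarith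

theorem DenseSeq.approx_real {V : ℕ → Set X} (hV : DenseSeq V) (m : Measure X)
    [IsFiniteMeasure m] (A : Set X) (hA : MeasurableSet A) (ε : ℝ) (hε : 0 < ε) :
    ∃ n, m.real (A ∆ V n) < ε := by
  obtain ⟨n, hn⟩ := hV.2 m inferInstance A hA ε hε
  refine ⟨n, ?_⟩
  rw [Measure.real]
  exact (ENNReal.toReal_lt_of_lt_ofReal hn)

theorem DenseSeq.close {V : ℕ → Set X} (hV : DenseSeq V) (m m' : Measure X)
    [IsFiniteMeasure m] [IsFiniteMeasure m'] (a : ℝ)
    (h : ∀ n, |m.real (V n) - m'.real (V n)| ≤ a) (A : Set X) (hA : MeasurableSet A) :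
    |m.real A - m'.real A| ≤ a := by
  refine le_of_forall_pos_le_add fun ε hε => ?_
  obtain ⟨n, hn⟩ := hV.approx_real (m + m') A hA (ε / 2) (by positivity)
  rw [measureReal_add_apply] at hn
  have h1 := real_diff_le m A (V n) hA (hV.1 n)
  have h2 := real_diff_le m' A (V n) hA (hV.1 n)
  have h3 : 0 ≤ m.real (A ∆ V n) := measureReal_nonneg
  have h4 : 0 ≤ m'.real (A ∆ V n) := measureReal_nonneg
  have h5 := h n
  rw [abs_le] at *
  constructor <;> linarith [h1.1, h1.2, h2.1, h2.2, h5.1, h5.2]

open scoped Classical in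
/-- The first index in the list whose set contains the point. -/
noncomputable def rf (V : ℕ → Set X) : List ℕ → X → ℕ
  | [], _ => 0
  | (n :: l), y => if y ∈ V n then 0 else rf V l y + 1

theorem rf_cons_mem (V : ℕ → Set X) (n : ℕ) (l : List ℕ) (y : X) (h : y ∈ V n) :
    rf V (n :: l) y = 0 := by
  rw [rf, if_pos h]

theorem rf_cons_not_mem (V : ℕ → Set X) (n : ℕ) (l : List ℕ) (y : X) (h : y ∉ V n) :
    rf V (n :: l) y = rf V l y + 1 := by
  rw [rf, if_neg h]

theorem measurable_rf {V : ℕ → Set X} (hV : ∀ n, MeasurableSet (V n)) (l : List ℕ) :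
    Measurable (rf V l) := by
  classical
  induction l with
  | nil => exact measurable_const
  | cons n l ih =>
    have e : rf V (n :: l) = fun y => if y ∈ V n then 0 else rf V l y + 1 := by
      funext y
      by_cases h : y ∈ V n
      · rw [rf_cons_mem V n l y h, if_pos h]
      · rw [rf_cons_not_mem V n l y h, if_neg h]
    rw [e]
    exact Measurable.ite (hV n) measurable_const (ih.add_const 1)

theorem rf_approx_aux {V : ℕ → Set X} (hV : DenseSeq V) (m : Measure X) [IsFiniteMeasure m]
    (K : ℕ) : ∀ (κ : X → ℕ), Measurable κ → ∀ ε : ℝ, 0 < ε →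
      ∃ l : List ℕ, m.real {y | κ y < K ∧ rf V l y ≠ κ y} < ε := by
  induction K with
  | zero =>
    intro κ _ ε hε
    refine ⟨[], ?_⟩
    simpa using hε
  | succ K ih =>
    intro κ hκ ε hε
    obtain ⟨l, hl⟩ := ih (fun y => κ y - 1) ((measurable_from_top (f := fun n : ℕ => n - 1)).comp hκ)
      (ε / 2) (by positivity)
    obtain ⟨n, hn⟩ := hV.approx_real m {y | κ y = 0} (hκ (measurableSet_singleton 0)) (ε / 2)
      (by positivity)
    refine ⟨n :: l, ?_⟩
    have hsub : {y | κ y < K + 1 ∧ rf V (n :: l) y ≠ κ y} ⊆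
        ({y | κ y = 0} ∆ V n) ∪ {y | κ y - 1 < K ∧ rf V l y ≠ κ y - 1} := by
      rintro y ⟨h1, h2⟩
      by_cases hy : y ∈ V n
      · left
        right
        refine ⟨hy, fun h0 => ?_⟩
        rw [rf_cons_mem V n l y hy] at h2
        exact h2 h0.symm
      · rw [rf_cons_not_mem V n l y hy] at h2
        by_cases h0 : κ y = 0
        · left
          left
          exact ⟨h0, hy⟩
        · right
          refine ⟨?_, ?_⟩
          · show κ y - 1 < K
            omega
          · show rf V l y ≠ κ y - 1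
            omega
    calc m.real {y | κ y < K + 1 ∧ rf V (n :: l) y ≠ κ y}
        ≤ m.real (({y | κ y = 0} ∆ V n) ∪ {y | κ y - 1 < K ∧ rf V l y ≠ κ y - 1}) :=
          measureReal_mono hsub
      _ ≤ _ := measureReal_union_le _ _
      _ < ε := by linarith

theorem rf_approx {V : ℕ → Set X} (hV : DenseSeq V) (m : Measure X) [IsFiniteMeasure m]
    (κ : X → ℕ) (hκ : Measurable κ) (ε : ℝ) (hε : 0 < ε) :
    ∃ l : List ℕ, m.real {y | rf V l y ≠ κ y} < ε := by
  have hlim : Filter.Tendsto (fun K : ℕ => m {y | K ≤ κ y}) Filter.atTop (nhds 0) := by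
    have := tendsto_measure_iInter_atTop (μ := m) (s := fun K : ℕ => {y | K ≤ κ y})
      (fun K => (hκ (MeasurableSet.of_discrete (s := Set.Ici K))).nullMeasurableSet)
      (fun a b hab y (hy : b ≤ κ y) => (le_trans hab hy : a ≤ κ y))
      ⟨0, measure_ne_top m _⟩
    have he : (⋂ K : ℕ, {y | K ≤ κ y}) = ∅ := by
      rw [Set.eq_empty_iff_forall_notMem]
      intro y hy
      have := Set.mem_iInter.1 hy (κ y + 1)
      simp only [mem_setOf_eq] at this
      omega
    rw [he, measure_empty] at this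
    exact this
  have h2 : ∀ᶠ K : ℕ in Filter.atTop, m {y | K ≤ κ y} < ENNReal.ofReal (ε / 2) :=
    hlim.eventually (gt_mem_nhds (by simpa using hε))
  obtain ⟨K, hK⟩ := h2.exists
  have hK' : m.real {y | K ≤ κ y} < ε / 2 := by
    rw [Measure.real]
    exact ENNReal.toReal_lt_of_lt_ofReal hK
  obtain ⟨l, hl⟩ := rf_approx_aux hV m K κ hκ (ε / 2) (by positivity)
  refine ⟨l, ?_⟩
  have hsub : {y | rf V l y ≠ κ y} ⊆ {y | K ≤ κ y} ∪ {y | κ y < K ∧ rf V l y ≠ κ y} := by
    intro y hy
    by_cases h : K ≤ κ y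
    · exact Or.inl h
    · exact Or.inr ⟨not_le.1 h, hy⟩
  calc m.real {y | rf V l y ≠ κ y}
      ≤ m.real ({y | K ≤ κ y} ∪ {y | κ y < K ∧ rf V l y ≠ κ y}) := measureReal_mono hsub
    _ ≤ _ := measureReal_union_le _ _
    _ < ε := by linarith

/-- The value at `A` of the signed measure coded by `c` over the reference measure `m`. -/
noncomputable def T (V : ℕ → Set X) (c : List (ℚ × ℕ)) (m : Measure X) (A : Set X) : ℝ :=
  (c.map fun p => (p.1 : ℝ) * m.real (A ∩ V p.2)).sum

theorem T_append (V : ℕ → Set X) (c d : List (ℚ × ℕ)) (m : Measure X) (A : Set X) :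
    T V (c ++ d) m A = T V c m A + T V d m A := by
  simp [T]

end Pool.Agent.Helper890.Sec
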