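import Pool.Agent.Helper890.Sec.Approx

set_option autoImplicit false

open MeasureTheory Set
open scoped symmDiff ENNReal

namespace Pool.Agent.Helper890.Sec

variable {X : Type} [MeasurableSpace X]

theorem T_dense {V : ℕ → Set X} (hV : DenseSeq V) (m : Measure X) [IsFiniteMeasure m]
    {f : X → ℝ≥0∞} (hf : Measurable f) :
    ∫⁻ x, f x ∂m ≠ ∞ → ∀ ε : ℝ, 0 < ε → ∃ c : List (ℚ × ℕ), ∀ A, MeasurableSet A →
      |(∫⁻ x in A, f x ∂m).toReal - T V c m A| ≤ ε := by
  refine hf.ennreal_induction ?_ ?_ ?_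
  · intro c s hs hfin ε hε
    have hint : ∀ A, MeasurableSet A →
        ∫⁻ x in A, s.indicator (fun _ => c) x ∂m = c * m (A ∩ s) := by
      intro A hA
      rw [lintegral_indicator hs, setLIntegral_const, Measure.restrict_apply hs]
      rw [inter_comm]
    by_cases hs0 : m s = 0
    · refine ⟨[], fun A hA => ?_⟩
      rw [hint A hA, measure_mono_null inter_subset_right hs0]
      simp [T, hε.le]
    · have hc : c ≠ ∞ := by
        intro hc
        rw [lintegral_indicator hs, setLIntegral_const, hc] at hfin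
        rw [ENNReal.top_mul hs0] at hfin
        exact hfin rfl
      have hM : 0 < m.real univ + 1 := by
        have : 0 ≤ m.real univ := measureReal_nonneg
        linarith
      obtain ⟨q, hq1, hq2⟩ := exists_rat_btwn
        (show c.toReal < c.toReal + ε / 2 / (m.real univ + 1) by
          have : 0 < ε / 2 / (m.real univ + 1) := by positivity
          linarith)
      obtain ⟨n, hn⟩ := hV.approx_real m s hs (ε / 2 / (|(q : ℝ)| + 1)) (by positivity)
      refine ⟨[(q, n)], fun A hA => ?_⟩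
      rw [hint A hA, ENNReal.toReal_mul]
      have hT : T V [(q, n)] m A = q * m.real (A ∩ V n) := by simp [T]
      rw [hT]
      change |c.toReal * m.real (A ∩ s) - q * m.real (A ∩ V n)| ≤ ε
      have e1 : |m.real (A ∩ s) - m.real (A ∩ V n)| ≤ m.real (s ∆ V n) := by
        refine le_trans (real_diff_le m _ _ (hA.inter hs) (hA.inter (hV.1 n))) ?_
        refine measureReal_mono ?_
        rintro x (⟨⟨h1, h2⟩, h3⟩ | ⟨⟨h1, h2⟩, h3⟩)
        · exact Or.inl ⟨h2, fun h => h3 ⟨h1, h⟩⟩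
        · exact Or.inr ⟨h2, fun h => h3 ⟨h1, h⟩⟩
      have e2 : |c.toReal - q| ≤ ε / 2 / (m.real univ + 1) := by
        rw [abs_le]
        constructor <;> linarith
      have e3 : m.real (A ∩ s) ≤ m.real univ + 1 := by
        have : m.real (A ∩ s) ≤ m.real univ := measureReal_mono (subset_univ _)
        linarith
      have e4 : 0 ≤ m.real (A ∩ s) := measureReal_nonneg
      have e5 : 0 ≤ m.real (s ∆ V n) := measureReal_nonneg
      have e6 : |c.toReal * m.real (A ∩ s) - q * m.real (A ∩ V n)| ≤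
          |c.toReal - q| * m.real (A ∩ s) + |(q : ℝ)| * |m.real (A ∩ s) - m.real (A ∩ V n)| := by
        have : c.toReal * m.real (A ∩ s) - q * m.real (A ∩ V n) =
            (c.toReal - q) * m.real (A ∩ s) + q * (m.real (A ∩ s) - m.real (A ∩ V n)) := by ring
        rw [this]
        refine (abs_add_le _ _).trans ?_
        rw [abs_mul, abs_mul, abs_of_nonneg e4]
      have e7 : |c.toReal - q| * m.real (A ∩ s) ≤ ε / 2 := by
        calc |c.toReal - q| * m.real (A ∩ s)
            ≤ ε / 2 / (m.real univ + 1) * (m.real univ + 1) := by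
              refine mul_le_mul e2 e3 e4 (by positivity)
          _ = ε / 2 := by field_simp
      have e8 : |(q : ℝ)| * |m.real (A ∩ s) - m.real (A ∩ V n)| ≤ ε / 2 := by
        calc |(q : ℝ)| * |m.real (A ∩ s) - m.real (A ∩ V n)|
            ≤ (|(q : ℝ)| + 1) * (ε / 2 / (|(q : ℝ)| + 1)) := by
              refine mul_le_mul (by linarith) (e1.trans hn.le) (abs_nonneg _) (by positivity)
          _ = ε / 2 := by field_simp
      linarith
  · intro f g _ hf hg ihf ihg hfin ε hε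
    have hfg : ∫⁻ x, (f + g) x ∂m = ∫⁻ x, f x ∂m + ∫⁻ x, g x ∂m := by
      simp only [Pi.add_apply]
      exact lintegral_add_left hf g
    rw [hfg] at hfin
    have hf1 : ∫⁻ x, f x ∂m ≠ ∞ := fun h => hfin (by rw [h]; simp)
    have hg1 : ∫⁻ x, g x ∂m ≠ ∞ := fun h => hfin (by rw [h]; simp)
    obtain ⟨c, hc⟩ := ihf hf1 (ε / 2) (by positivity)
    obtain ⟨d, hd⟩ := ihg hg1 (ε / 2) (by positivity)
    refine ⟨c ++ d, fun A hA => ?_⟩
    have hfA : ∫⁻ x in A, f x ∂m ≠ ∞ := ne_top_of_le_ne_top hf1 (setLIntegral_le_lintegral _ _)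
    have hgA : ∫⁻ x in A, g x ∂m ≠ ∞ := ne_top_of_le_ne_top hg1 (setLIntegral_le_lintegral _ _)
    have e : (∫⁻ x in A, (f + g) x ∂m).toReal =
        (∫⁻ x in A, f x ∂m).toReal + (∫⁻ x in A, g x ∂m).toReal := by
      simp only [Pi.add_apply]
      rw [lintegral_add_left hf g, ENNReal.toReal_add hfA hgA]
    rw [e, T_append]
    have h1 := hc A hA
    have h2 := hd A hA
    rw [abs_le] at *
    constructor <;> linarith [h1.1, h1.2, h2.1, h2.2]
  · intro f hf hmono ih hfin ε hε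
    have hlim : ∫⁻ x, (⨆ n, f n x) ∂m = ⨆ n, ∫⁻ x, f n x ∂m :=
      lintegral_iSup hf hmono
    have hle : ∀ n, ∫⁻ x, f n x ∂m ≤ ∫⁻ x, (⨆ n, f n x) ∂m := by
      intro n
      exact lintegral_mono fun x => le_iSup (fun n => f n x) n
    obtain ⟨n, hn⟩ : ∃ n, ∫⁻ x, (⨆ n, f n x) ∂m - ENNReal.ofReal (ε / 2) ≤ ∫⁻ x, f n x ∂m := by
      by_cases h0 : ∫⁻ x, (⨆ n, f n x) ∂m = 0
      · exact ⟨0, by rw [h0]; simp⟩
      · have : ∫⁻ x, (⨆ n, f n x) ∂m - ENNReal.ofReal (ε / 2) < ⨆ n, ∫⁻ x, f n x ∂m := by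
          rw [← hlim]
          refine ENNReal.sub_lt_self hfin h0 ?_
          simp [hε]
        obtain ⟨n, hn⟩ := lt_iSup_iff.1 this
        exact ⟨n, hn.le⟩
    have hfn : ∫⁻ x, f n x ∂m ≠ ∞ := ne_top_of_le_ne_top hfin (hle n)
    obtain ⟨c, hc⟩ := ih n hfn (ε / 2) (by positivity)
    refine ⟨c, fun A hA => ?_⟩
    have hsm : Measurable fun x => ⨆ n, f n x := Measurable.iSup hf
    set F : ℝ := (∫⁻ x in A, (⨆ n, f n x) ∂m).toReal with hF
    set G : ℝ := (∫⁻ x in A, f n x ∂m).toReal with hG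
    have hA1 : ∫⁻ x in A, (⨆ n, f n x) ∂m ≠ ∞ :=
      ne_top_of_le_ne_top hfin (setLIntegral_le_lintegral _ _)
    have hA2 : ∫⁻ x in Aᶜ, (⨆ n, f n x) ∂m ≠ ∞ :=
      ne_top_of_le_ne_top hfin (setLIntegral_le_lintegral _ _)
    have hA3 : ∫⁻ x in A, f n x ∂m ≠ ∞ :=
      ne_top_of_le_ne_top hfn (setLIntegral_le_lintegral _ _)
    have hA4 : ∫⁻ x in Aᶜ, f n x ∂m ≠ ∞ :=
      ne_top_of_le_ne_top hfn (setLIntegral_le_lintegral _ _)
    have hGF : G ≤ F := by
      refine ENNReal.toReal_mono hA1 ?_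
      exact lintegral_mono fun x => le_iSup (fun n => f n x) n
    have hGF' : (∫⁻ x in Aᶜ, f n x ∂m).toReal ≤ (∫⁻ x in Aᶜ, (⨆ n, f n x) ∂m).toReal := by
      refine ENNReal.toReal_mono hA2 ?_
      exact lintegral_mono fun x => le_iSup (fun n => f n x) n
    have s1 : (∫⁻ x, (⨆ n, f n x) ∂m).toReal = F + (∫⁻ x in Aᶜ, (⨆ n, f n x) ∂m).toReal := by
      rw [← lintegral_add_compl _ hA, ENNReal.toReal_add hA1 hA2]
    have s2 : (∫⁻ x, f n x ∂m).toReal = G + (∫⁻ x in Aᶜ, f n x ∂m).toReal := by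
      rw [← lintegral_add_compl _ hA, ENNReal.toReal_add hA3 hA4]
    have s3 : (∫⁻ x, (⨆ n, f n x) ∂m).toReal ≤ (∫⁻ x, f n x ∂m).toReal + ε / 2 := by
      have := tsub_le_iff_right.1 hn
      have h2 := ENNReal.toReal_mono (by simp [hfn]) this
      rw [ENNReal.toReal_add hfn (by simp), ENNReal.toReal_ofReal (by positivity)] at h2
      exact h2
    have h1 := hc A hA
    rw [← hG] at h1
    rw [abs_le] at *
    constructor <;> linarith [h1.1, h1.2]

/-- A measure absolutely continuous with respect to `m` is uniformly approximated by a code. -/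
theorem code_exists {V : ℕ → Set X} (hV : DenseSeq V) (m m' : Measure X) [IsFiniteMeasure m]
    [IsFiniteMeasure m'] (h : m'.AbsolutelyContinuous m) (ε : ℝ) (hε : 0 < ε) :
    ∃ c : List (ℚ × ℕ), ∀ A, MeasurableSet A → |m'.real A - T V c m A| ≤ ε := by
  have hd : m.withDensity (m'.rnDeriv m) = m' := Measure.withDensity_rnDeriv_eq m' m h
  have hfin : ∫⁻ x, m'.rnDeriv m x ∂m ≠ ∞ := by
    have : ∫⁻ x, m'.rnDeriv m x ∂m = m' univ := by
      conv_rhs => rw [← hd]
      rw [withDensity_apply _ MeasurableSet.univ, Measure.restrict_univ]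
    rw [this]
    exact measure_ne_top _ _
  obtain ⟨c, hc⟩ := T_dense hV m (Measure.measurable_rnDeriv m' m) hfin ε hε
  refine ⟨c, fun A hA => ?_⟩
  have := hc A hA
  rw [← withDensity_apply _ hA, hd] at this
  exact this

end Pool.Agent.Helper890.Sec
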