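import Pool.Agent.Helper890.Sec.LN

set_option autoImplicit false

open MeasureTheory Set
open scoped ENNReal

namespace Pool.Agent.Helper890.Sec

/-- Borel enumeration of nonempty countable sections. -/
theorem exists_enum {X : Type} [MeasurableSpace X] [StandardBorelSpace X] {R : Set (X × X)}
    (hR : MeasurableSet R) (hc : ∀ x, {y | (x, y) ∈ R}.Countable)
    (hne : ∀ x, ∃ y, (x, y) ∈ R) :
    ∃ h : ℕ → X → X, (∀ n, Measurable (h n)) ∧ ∀ x y, (x, y) ∈ R ↔ ∃ n, h n x = y := by
  classical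
  let := upgradeStandardBorel X
  obtain ⟨G, hG1, hG2, hG3⟩ := LN.lusin_novikov hR hc
  have hinj : ∀ n, InjOn (Prod.fst : X × X → X) (G n) := by
    rintro n ⟨a, b⟩ h1 ⟨a', b'⟩ h2 hab
    simp only at hab
    subst hab
    rw [hG3 n _ _ _ h1 h2]
  let D : ℕ → Set X := fun n => Prod.fst '' (G n)
  have hD : ∀ n, MeasurableSet (D n) := fun n =>
    (hG1 n).image_of_measurable_injOn measurable_fst (hinj n)
  have hDmem : ∀ n x, x ∈ D n ↔ ∃ y, (x, y) ∈ G n := by
    intro n x
    constructor
    · rintro ⟨⟨a, b⟩, h1, h2⟩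
      simp only at h2
      subst h2
      exact ⟨b, h1⟩
    · rintro ⟨y, hy⟩
      exact ⟨(x, y), hy, rfl⟩
  let f : ℕ → X → X := fun n x => if h : ∃ y, (x, y) ∈ G n then h.choose else x
  have hf1 : ∀ n x, x ∈ D n → (x, f n x) ∈ G n := by
    intro n x hx
    have h := (hDmem n x).1 hx
    have : f n x = h.choose := dif_pos h
    rw [this]
    exact h.choose_spec
  have hf : ∀ n, Measurable (f n) := by
    intro n B hB
    have e : f n ⁻¹' B = (Prod.fst '' (G n ∩ Prod.snd ⁻¹' B)) ∪ (B \ D n) := by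
      ext x
      by_cases hx : x ∈ D n
      · constructor
        · intro hh
          exact Or.inl ⟨(x, f n x), ⟨hf1 n x hx, hh⟩, rfl⟩
        · rintro (⟨⟨a, b⟩, ⟨h1, h2⟩, h3⟩ | ⟨h1, h2⟩)
          · simp only at h3
            subst h3
            show f n a ∈ B
            rw [hG3 n _ _ _ (hf1 n a hx) h1]
            exact h2
          · exact absurd hx h2
      · have hno : ¬ ∃ y, (x, y) ∈ G n := fun h => hx ((hDmem n x).2 h)
        have hfx : f n x = x := dif_neg hno
        constructor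
        · intro hh
          have hh' : f n x ∈ B := hh
          rw [hfx] at hh'
          exact Or.inr ⟨hh', hx⟩
        · rintro (⟨⟨a, b⟩, ⟨h1, h2⟩, h3⟩ | ⟨h1, h2⟩)
          · simp only at h3
            subst h3
            exact absurd ⟨b, h1⟩ hno
          · show f n x ∈ B
            rw [hfx]
            exact h1
    rw [e]
    refine MeasurableSet.union ?_ (hB.diff (hD n))
    exact ((hG1 n).inter (measurable_snd hB)).image_of_measurable_injOn measurable_fst
      ((hinj n).mono inter_subset_left)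
  have hex : ∀ x, ∃ n, x ∈ D n := by
    intro x
    obtain ⟨y, hy⟩ := hne x
    rw [← hG2] at hy
    obtain ⟨n, hn⟩ := mem_iUnion.1 hy
    exact ⟨n, (hDmem n x).2 ⟨y, hn⟩⟩
  let g : X → X := fun x => f (Nat.find (hex x)) x
  have hfind : Measurable fun x => Nat.find (hex x) := measurable_find hex hD
  have hg : Measurable g := by
    intro B hB
    have e : g ⁻¹' B = ⋃ n, ({x | Nat.find (hex x) = n} ∩ f n ⁻¹' B) := by
      ext x
      rw [mem_iUnion]
      constructor
      · intro h
        exact ⟨Nat.find (hex x), rfl, h⟩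
      · rintro ⟨n, h1, h2⟩
        have h1' : Nat.find (hex x) = n := h1
        show f (Nat.find (hex x)) x ∈ B
        rw [h1']
        exact h2
    rw [e]
    exact MeasurableSet.iUnion fun n => (hfind (measurableSet_singleton n)).inter (hf n hB)
  have hRmem : ∀ n x, x ∈ D n → (x, f n x) ∈ R := by
    intro n x hx
    rw [← hG2]
    exact mem_iUnion.2 ⟨n, hf1 n x hx⟩
  refine ⟨fun n x => if x ∈ D n then f n x else g x, fun n => Measurable.ite (hD n) (hf n) hg, ?_⟩
  intro x y
  constructor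
  · intro h
    rw [← hG2] at h
    obtain ⟨n, hn⟩ := mem_iUnion.1 h
    have hx : x ∈ D n := (hDmem n x).2 ⟨y, hn⟩
    refine ⟨n, ?_⟩
    simp only [if_pos hx]
    exact hG3 n _ _ _ (hf1 n x hx) hn
  · rintro ⟨n, hn⟩
    by_cases hx : x ∈ D n
    · simp only [if_pos hx] at hn
      rw [← hn]
      exact hRmem n x hx
    · simp only [if_neg hx] at hn
      rw [← hn]
      exact hRmem _ x (Nat.find_spec (hex x))

/-- A complete countable Borel section gives a Borel assignment of measure classes. -/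
theorem assignment_of_section {X : Type} [MeasurableSpace X] [StandardBorelSpace X]
    (E : X → X → Prop) (hE : Equivalence E)
    (hEm : MeasurableSet {p : X × X | E p.1 p.2}) (B : Set X) (hB : MeasurableSet B)
    (hBc : ∀ x : X, (B ∩ {y | E x y}).Countable ∧ (B ∩ {y | E x y}).Nonempty) :
    ∃ μ : X → Measure X, Measurable μ ∧ (∀ x : X, IsProbabilityMeasure (μ x)) ∧
      (∀ x : X, μ x {y | E x y} = 1) ∧
      ∀ x y : X, E x y → ((μ x).AbsolutelyContinuous (μ y) ∧
        (μ y).AbsolutelyContinuous (μ x)) := by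
  classical
  obtain ⟨h, hh1, hh2⟩ := exists_enum (R := {p : X × X | p.2 ∈ B ∧ E p.1 p.2})
    ((measurable_snd hB).inter hEm) (fun x => (hBc x).1) (fun x => (hBc x).2)
  have hmem : ∀ n x, h n x ∈ B ∧ E x (h n x) := fun n x => (hh2 x (h n x)).2 ⟨n, rfl⟩
  let μ : X → Measure X := fun x =>
    Measure.sum fun n : ℕ => ((2 : ℝ≥0∞)⁻¹ ^ (n + 1)) • Measure.dirac (h n x)
  have hμA : ∀ x A, MeasurableSet A →
      μ x A = ∑' n : ℕ, (2 : ℝ≥0∞)⁻¹ ^ (n + 1) * A.indicator 1 (h n x) := by
    intro x A hA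
    show (Measure.sum fun n : ℕ => ((2 : ℝ≥0∞)⁻¹ ^ (n + 1)) • Measure.dirac (h n x)) A = _
    rw [Measure.sum_apply _ hA]
    refine tsum_congr fun n => ?_
    rw [Measure.smul_apply, Measure.dirac_apply' _ hA, smul_eq_mul]
  have hsum : ∑' n : ℕ, (2 : ℝ≥0∞)⁻¹ ^ (n + 1) = 1 := by
    rw [ENNReal.tsum_geometric_add_one, ENNReal.one_sub_inv_two, inv_inv]
    exact ENNReal.inv_mul_cancel (by norm_num) (by norm_num)
  have hone : ∀ x A, MeasurableSet A → (∀ n, h n x ∈ A) → μ x A = 1 := by
    intro x A hA hn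
    rw [hμA x A hA, ← hsum]
    refine tsum_congr fun n => ?_
    rw [indicator_of_mem (hn n)]
    simp
  have hcls : ∀ x, MeasurableSet {y | E x y} := fun x => measurable_prodMk_left hEm
  have hac : ∀ x y, E x y → (μ x).AbsolutelyContinuous (μ y) := by
    intro x y hxy
    refine Measure.AbsolutelyContinuous.mk fun A hA h0 => ?_
    rw [hμA y A hA, ENNReal.tsum_eq_zero] at h0
    rw [hμA x A hA, ENNReal.tsum_eq_zero]
    intro n
    obtain ⟨m, hm⟩ := (hh2 y (h n x)).1 ⟨(hmem n x).1, hE.trans (hE.symm hxy) (hmem n x).2⟩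
    have hm0 := h0 m
    rw [hm] at hm0
    rw [mul_eq_zero] at hm0 ⊢
    rcases hm0 with h1 | h1
    · exact absurd h1 (pow_ne_zero _ (by norm_num))
    · exact Or.inr h1
  refine ⟨μ, ?_, fun x => ⟨hone x univ MeasurableSet.univ fun n => mem_univ _⟩,
    fun x => hone x _ (hcls x) fun n => (hmem n x).2, fun x y hxy =>
      ⟨hac x y hxy, hac y x (hE.symm hxy)⟩⟩
  refine Measure.measurable_of_measurable_coe _ fun A hA => ?_
  have e : (fun x => μ x A) = fun x =>
      ∑' n : ℕ, (2 : ℝ≥0∞)⁻¹ ^ (n + 1) * A.indicator 1 (h n x) := by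
    funext x
    exact hμA x A hA
  rw [e]
  refine Measurable.tsum fun n => ?_
  refine Measurable.const_mul ?_ _
  exact (measurable_one.indicator hA).comp (hh1 n)

end Pool.Agent.Helper890.Sec
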