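import Mathlib

set_option autoImplicit false

open MeasureTheory Set Filter
open scoped ENNReal Topology

namespace Pool.Agent.Helper890.Sec

theorem exists_polish_continuous {X : Type} [MeasurableSpace X] [StandardBorelSpace X]
    (q : X → ℕ → Bool) (hq : Measurable q) :
    ∃ _ : TopologicalSpace X, BorelSpace X ∧ PolishSpace X ∧ Continuous q := by
  let := upgradeStandardBorel X
  obtain ⟨t, hle, hc, ht⟩ := hq.exists_continuous
  refine ⟨t, ?_, ht, hc⟩
  constructor
  rw [eq_borel_upgradeStandardBorel X, borel_eq_borel_of_le ht _ hle]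
  infer_instance

section

variable {X : Type} [PseudoMetricSpace X]

/-- Nested intersections of balls around the points `d i`. -/
def Ab (d : ℕ → X) : List ℕ → Set X
  | [] => univ
  | (i :: l) => Ab d l ∩ Metric.ball (d i) ((1 / 2 : ℝ) ^ l.length)

theorem Ab_iUnion (d : ℕ → X) (hd : DenseRange d) (l : List ℕ) :
    Ab d l = ⋃ i, Ab d (i :: l) := by
  ext x
  rw [mem_iUnion]
  constructor
  · intro hx
    obtain ⟨i, hi⟩ := hd.exists_dist_lt x (show (0 : ℝ) < (1 / 2 : ℝ) ^ l.length by positivity)
    exact ⟨i, hx, hi⟩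
  · rintro ⟨i, hx⟩
    exact hx.1

theorem measurableSet_Ab [MeasurableSpace X] [OpensMeasurableSpace X] (d : ℕ → X) (l : List ℕ) :
    MeasurableSet (Ab d l) := by
  induction l with
  | nil => exact MeasurableSet.univ
  | cons i l ih => exact ih.inter Metric.isOpen_ball.measurableSet

end

section

variable {X : Type} [MeasurableSpace X]

/-- The predicate selecting the next ball. -/
def Pr (ν : X → Measure X) (A : List ℕ → Set X) (x : X) (l : List ℕ) (i : ℕ) : Prop :=
  ν x (A (i :: l)) ≠ 0 ∨ ∀ j, ν x (A (j :: l)) = 0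

theorem Pr_ex (ν : X → Measure X) (A : List ℕ → Set X) (x : X) (l : List ℕ) :
    ∃ i, Pr ν A x l i := by
  by_cases h : ∃ i, ν x (A (i :: l)) ≠ 0
  · obtain ⟨i, hi⟩ := h
    exact ⟨i, Or.inl hi⟩
  · push Not at h
    exact ⟨0, Or.inr h⟩

open scoped Classical in
/-- The next index. -/
noncomputable def nx (ν : X → Measure X) (A : List ℕ → Set X) (x : X) (l : List ℕ) : ℕ :=
  Nat.find (Pr_ex ν A x l)

theorem nx_spec (ν : X → Measure X) (A : List ℕ → Set X) (x : X) (l : List ℕ) :
    Pr ν A x l (nx ν A x l) := by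
  classical
  exact Nat.find_spec (Pr_ex ν A x l)

theorem measurable_nx (ν : X → Measure X) (hν : Measurable ν) (A : List ℕ → Set X)
    (hA : ∀ l, MeasurableSet (A l)) (l : List ℕ) : Measurable fun x => nx ν A x l := by
  classical
  refine measurable_find (fun x => Pr_ex ν A x l) fun k => ?_
  have hm : ∀ l, MeasurableSet {x | ν x (A l) = 0} := by
    intro l
    have : Measurable fun x => ν x (A l) := (Measure.measurable_coe (hA l)).comp hν
    exact this (measurableSet_singleton 0)
  have e : {x | Pr ν A x l k} = {x | ν x (A (k :: l)) = 0}ᶜ ∪ ⋂ j, {x | ν x (A (j :: l)) = 0} := by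
    ext x
    simp only [Pr, mem_union, mem_compl_iff, mem_iInter]
    rfl
  rw [e]
  exact (hm _).compl.union (MeasurableSet.iInter fun j => hm _)

theorem nx_congr (ν : X → Measure X) (A : List ℕ → Set X)
    {x x' : X} (h : ∀ l, ν x (A l) = 0 ↔ ν x' (A l) = 0) (l : List ℕ) :
    nx ν A x l = nx ν A x' l := by
  classical
  unfold nx
  apply Nat.find_congr'
  intro n
  unfold Pr
  simp only [ne_eq, h]

/-- The list of indices chosen so far. -/
noncomputable def Ls (ν : X → Measure X) (A : List ℕ → Set X) : ℕ → X → List ℕ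
  | 0, _ => []
  | (n + 1), x => nx ν A x (Ls ν A n x) :: Ls ν A n x

theorem Ls_length (ν : X → Measure X) (A : List ℕ → Set X) (n : ℕ) (x : X) :
    (Ls ν A n x).length = n := by
  induction n with
  | zero => rfl
  | succ n ih => simp [Ls, ih]

theorem measurableSet_Ls (ν : X → Measure X) (hν : Measurable ν) (A : List ℕ → Set X)
    (hA : ∀ l, MeasurableSet (A l)) (n : ℕ) : ∀ l, MeasurableSet {x | Ls ν A n x = l} := by
  induction n with
  | zero =>
    intro l
    by_cases h : l = []
    · have : {x | Ls ν A 0 x = l} = univ := by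
        ext x
        simp [Ls, h]
      rw [this]
      exact MeasurableSet.univ
    · have : {x | Ls ν A 0 x = l} = ∅ := by
        rw [eq_empty_iff_forall_notMem]
        intro x hx
        exact h (show l = [] from hx.symm)
      rw [this]
      exact MeasurableSet.empty
  | succ n ih =>
    intro l
    cases l with
    | nil =>
      have : {x | Ls ν A (n + 1) x = []} = ∅ := by
        rw [eq_empty_iff_forall_notMem]
        intro x hx
        have := congrArg List.length hx
        rw [Ls_length] at this
        simp at this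
      rw [this]
      exact MeasurableSet.empty
    | cons i l =>
      have : {x | Ls ν A (n + 1) x = i :: l} = {x | nx ν A x l = i} ∩ {x | Ls ν A n x = l} := by
        ext x
        constructor
        · intro hx
          have hx' : nx ν A x (Ls ν A n x) :: Ls ν A n x = i :: l := hx
          rw [List.cons.injEq] at hx'
          refine ⟨?_, hx'.2⟩
          have h1 := hx'.1
          rw [hx'.2] at h1
          exact h1
        · rintro ⟨h1, h2⟩
          show nx ν A x (Ls ν A n x) :: Ls ν A n x = i :: l
          have h2' : Ls ν A n x = l := h2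
          rw [h2']
          have h1' : nx ν A x l = i := h1
          rw [h1']
      rw [this]
      exact (measurable_nx ν hν A hA l (measurableSet_singleton i)).inter (ih l)

theorem measurable_idx (ν : X → Measure X) (hν : Measurable ν) (A : List ℕ → Set X)
    (hA : ∀ l, MeasurableSet (A l)) (n : ℕ) : Measurable fun x => nx ν A x (Ls ν A n x) := by
  refine measurable_to_countable' fun i => ?_
  have : (fun x => nx ν A x (Ls ν A n x)) ⁻¹' {i} =
      ⋃ l, ({x | nx ν A x l = i} ∩ {x | Ls ν A n x = l}) := by
    ext x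
    simp only [mem_preimage, mem_singleton_iff, mem_iUnion, mem_inter_iff]
    constructor
    · intro h
      exact ⟨Ls ν A n x, h, rfl⟩
    · rintro ⟨l, h1, h2⟩
      have h2' : Ls ν A n x = l := h2
      rw [h2']
      exact h1
  rw [this]
  exact MeasurableSet.iUnion fun l =>
    (measurable_nx ν hν A hA l (measurableSet_singleton i)).inter (measurableSet_Ls ν hν A hA n l)

end

theorem selector_metric {X : Type} [MeasurableSpace X] [MetricSpace X] [CompleteSpace X]
    [SecondCountableTopology X] [BorelSpace X] [Nonempty X]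
    (ν : X → Measure X) (hν : Measurable ν) (q : X → ℕ → Bool) (hq : Continuous q)
    (G : Set X) (hG : MeasurableSet G)
    (h0 : ∀ x ∈ G, ν x univ ≠ 0)
    (h1 : ∀ x ∈ G, ν x {y | q y ≠ q x} = 0)
    (h2 : ∀ x ∈ G, ∀ x' ∈ G, q x = q x' → ∀ A, MeasurableSet A → (ν x A = 0 ↔ ν x' A = 0)) :
    ∃ s : X → X, Measurable s ∧ (∀ x ∈ G, q (s x) = q x) ∧
      ∀ x ∈ G, ∀ x' ∈ G, q x = q x' → s x = s x' := by
  classical
  let d : ℕ → X := TopologicalSpace.denseSeq X
  have hd : DenseRange d := TopologicalSpace.denseRange_denseSeq X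
  let A : List ℕ → Set X := Ab d
  have hA : ∀ l, MeasurableSet (A l) := measurableSet_Ab d
  have hinv : ∀ x ∈ G, ∀ n, ν x (A (Ls ν A n x)) ≠ 0 := by
    intro x hx n
    induction n with
    | zero => exact h0 x hx
    | succ n ih =>
      show ν x (A (nx ν A x (Ls ν A n x) :: Ls ν A n x)) ≠ 0
      rcases nx_spec ν A x (Ls ν A n x) with h | h
      · exact h
      · exfalso
        apply ih
        have e : A (Ls ν A n x) = ⋃ i, A (i :: Ls ν A n x) := Ab_iUnion d hd _
        rw [e]
        exact measure_iUnion_null h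
  let c : ℕ → X → X := fun n x => d (nx ν A x (Ls ν A n x))
  have hc : ∀ n, Measurable (c n) := by
    intro n
    exact (measurable_from_top (f := d)).comp (measurable_idx ν hν A hA n)
  have hsucc : ∀ n x, A (Ls ν A (n + 1) x) ⊆ Metric.ball (c n x) ((1 / 2 : ℝ) ^ n) := by
    intro n x y hy
    have hy' : y ∈ A (Ls ν A n x) ∩
      Metric.ball (d (nx ν A x (Ls ν A n x))) ((1 / 2 : ℝ) ^ (Ls ν A n x).length) := hy
    rw [Ls_length] at hy'
    exact hy'.2
  have hmono : ∀ n x, A (Ls ν A (n + 1) x) ⊆ A (Ls ν A n x) := by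
    intro n x y hy
    have hy' : y ∈ A (Ls ν A n x) ∩
      Metric.ball (d (nx ν A x (Ls ν A n x))) ((1 / 2 : ℝ) ^ (Ls ν A n x).length) := hy
    exact hy'.1
  have hcauchy : ∀ x ∈ G, CauchySeq fun n => c n x := by
    intro x hx
    refine cauchySeq_of_le_geometric (1 / 2) 2 (by norm_num) fun n => ?_
    obtain ⟨p, hp⟩ := nonempty_of_measure_ne_zero (hinv x hx (n + 2))
    have p1 := hsucc (n + 1) x hp
    have p2 := hsucc n x (hmono (n + 1) x hp)
    rw [Metric.mem_ball] at p1 p2
    have : dist (c n x) (c (n + 1) x) ≤ dist (c n x) p + dist p (c (n + 1) x) :=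
      dist_triangle _ _ _
    rw [dist_comm (c n x) p] at this
    have e : (1 / 2 : ℝ) ^ (n + 1) = (1 / 2) * (1 / 2) ^ n := by ring
    have pos : (0 : ℝ) < (1 / 2) ^ n := by positivity
    rw [e] at p1
    linarith
  let g : ℕ → X → X := fun n x => if x ∈ G then c n x else d 0
  have hg : ∀ n, Measurable (g n) := fun n => Measurable.ite hG (hc n) measurable_const
  have hlim : ∀ x, ∃ y, Tendsto (fun n => g n x) atTop (𝓝 y) := by
    intro x
    by_cases hx : x ∈ G
    · obtain ⟨y, hy⟩ := cauchySeq_tendsto_of_complete (hcauchy x hx)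
      refine ⟨y, ?_⟩
      simpa only [g, if_pos hx] using hy
    · refine ⟨d 0, ?_⟩
      simp only [g, if_neg hx]
      exact tendsto_const_nhds
  choose s hs using hlim
  refine ⟨s, ?_, ?_, ?_⟩
  · exact measurable_of_tendsto_metrizable hg (tendsto_pi_nhds.2 hs)
  · intro x hx
    have hs' : Tendsto (fun n => c n x) atTop (𝓝 (s x)) := by
      have := hs x
      simpa only [g, if_pos hx] using this
    have hex : ∀ n, ∃ p, q p = q x ∧ dist p (c n x) < (1 / 2 : ℝ) ^ n := by
      intro n
      by_contra hcon
      push Not at hcon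
      apply hinv x hx (n + 1)
      refine measure_mono_null ?_ (h1 x hx)
      intro p hp hqp
      have := hsucc n x hp
      rw [Metric.mem_ball] at this
      exact absurd this (not_lt.2 (hcon p hqp))
    choose p hp1 hp2 using hex
    have hp3 : Tendsto (fun n => dist (p n) (c n x)) atTop (𝓝 0) := by
      refine squeeze_zero (fun _ => dist_nonneg) (fun n => (hp2 n).le) ?_
      exact tendsto_pow_atTop_nhds_zero_of_lt_one (by norm_num) (by norm_num)
    have hp4 : Tendsto p atTop (𝓝 (s x)) := by
      rw [tendsto_iff_dist_tendsto_zero] at hs' ⊢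
      refine squeeze_zero (fun _ => dist_nonneg) (fun n => dist_triangle (p n) (c n x) (s x)) ?_
      simpa using hp3.add hs'
    have hcl : IsClosed {y | q y = q x} := isClosed_eq hq continuous_const
    exact hcl.mem_of_tendsto hp4 (Eventually.of_forall hp1)
  · intro x hx x' hx' hqq
    have hnull : ∀ l, ν x (A l) = 0 ↔ ν x' (A l) = 0 := fun l => h2 x hx x' hx' hqq _ (hA l)
    have hL : ∀ n, Ls ν A n x = Ls ν A n x' := by
      intro n
      induction n with
      | zero => rfl
      | succ n ih =>
        show nx ν A x (Ls ν A n x) :: Ls ν A n x = nx ν A x' (Ls ν A n x') :: Ls ν A n x'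
        rw [ih, nx_congr ν A hnull]
    have hgg : (fun n => g n x) = fun n => g n x' := by
      funext n
      simp only [g, if_pos hx, if_pos hx', c]
      rw [hL n, nx_congr ν A hnull]
    have e1 := hs x
    rw [hgg] at e1
    exact tendsto_nhds_unique e1 (hs x')

/-- Borel selector for a smooth relation with a measure class on each class. -/
theorem selector {X : Type} [MeasurableSpace X] [StandardBorelSpace X]
    (ν : X → Measure X) (hν : Measurable ν) (q : X → ℕ → Bool) (hq : Measurable q)
    (G : Set X) (hG : MeasurableSet G)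
    (h0 : ∀ x ∈ G, ν x univ ≠ 0)
    (h1 : ∀ x ∈ G, ν x {y | q y ≠ q x} = 0)
    (h2 : ∀ x ∈ G, ∀ x' ∈ G, q x = q x' → ∀ A, MeasurableSet A → (ν x A = 0 ↔ ν x' A = 0)) :
    ∃ s : X → X, Measurable s ∧ (∀ x ∈ G, q (s x) = q x) ∧
      ∀ x ∈ G, ∀ x' ∈ G, q x = q x' → s x = s x' := by
  rcases isEmpty_or_nonempty X with hX | hX
  · exact ⟨id, measurable_id, fun x => (hX.false x).elim, fun x => (hX.false x).elim⟩
  obtain ⟨t, hb, hp, hc⟩ := exists_polish_continuous q hq
  letI := TopologicalSpace.upgradeIsCompletelyMetrizable X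
  exact selector_metric ν hν q hc G hG h0 h1 h2

end Pool.Agent.Helper890.Sec
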