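import Pool.Agent.Helper890.Sec.Dens
import Pool.Agent.Helper890.Sec.Selector

set_option autoImplicit false

open MeasureTheory Set
open scoped symmDiff ENNReal

namespace Pool.Agent.Helper890.Sec

/-- The data: a Borel equivalence relation with a Borel assignment of measures,
a dense sequence of sets and an enumeration of codes. -/
structure Ctx (X : Type) [MeasurableSpace X] [StandardBorelSpace X] where
  E : X → X → Prop
  hE : Equivalence E
  hEm : MeasurableSet {p : X × X | E p.1 p.2}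
  μ : X → Measure X
  hμ : Measurable μ
  hp : ∀ x, IsProbabilityMeasure (μ x)
  h1 : ∀ x, μ x {y | E x y} = 1
  hac : ∀ x y, E x y → (μ x).AbsolutelyContinuous (μ y)
  V : ℕ → Set X
  hV : DenseSeq V
  e : ℕ → List (ℚ × ℕ)
  he : Function.Surjective e

variable {X : Type} [MeasurableSpace X] [StandardBorelSpace X]

namespace Ctx

variable (C : Ctx X)

instance (x : X) : IsProbabilityMeasure (C.μ x) := C.hp x

theorem meas_coe {A : Set X} (hA : MeasurableSet A) : Measurable fun x => C.μ x A :=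
  (Measure.measurable_coe hA).comp C.hμ

theorem meas_real {A : Set X} (hA : MeasurableSet A) : Measurable fun x => (C.μ x).real A :=
  (C.meas_coe hA).ennreal_toReal

theorem meas_sec {R : X → X → Prop} (hR : MeasurableSet {p : X × X | R p.1 p.2}) :
    Measurable fun x => C.μ x {y | R x y} := by
  let κ : ProbabilityTheory.Kernel X X := ⟨C.μ, C.hμ⟩
  have hκ : ProbabilityTheory.IsMarkovKernel κ := ⟨fun x => C.hp x⟩
  exact ProbabilityTheory.Kernel.measurable_kernel_prodMk_left (κ := κ) hR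

theorem meas_class (x : X) : MeasurableSet {y | C.E x y} := measurable_prodMk_left C.hEm

/-- `μ x` is approximated by the code `c` over `μ y`. -/
def Q (x y : X) (c : List (ℚ × ℕ)) : Prop :=
  ∀ n, |(C.μ x).real (C.V n) - T C.V c (C.μ y) (C.V n)| ≤ 1 / 100

theorem meas_T (c : List (ℚ × ℕ)) {A : Set X} (hA : MeasurableSet A) :
    Measurable fun y => T C.V c (C.μ y) A := by
  induction c with
  | nil =>
    have : (fun y => T C.V [] (C.μ y) A) = fun _ => 0 := by
      funext y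
      simp [T]
    rw [this]
    exact measurable_const
  | cons p c ih =>
    have : (fun y => T C.V (p :: c) (C.μ y) A) =
        fun y => (p.1 : ℝ) * (C.μ y).real (A ∩ C.V p.2) + T C.V c (C.μ y) A := by
      funext y
      simp [T]
    rw [this]
    exact ((C.meas_real (hA.inter (C.hV.1 p.2))).const_mul _).add ih

theorem meas_Q (c : List (ℚ × ℕ)) : MeasurableSet {p : X × X | C.Q p.1 p.2 c} := by
  have : {p : X × X | C.Q p.1 p.2 c} = ⋂ n, {p : X × X |
      |(C.μ p.1).real (C.V n) - T C.V c (C.μ p.2) (C.V n)| ≤ 1 / 100} := by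
    ext p
    simp only [Q, mem_iInter]
    rfl
  rw [this]
  refine MeasurableSet.iInter fun n => ?_
  refine measurableSet_le ?_ measurable_const
  have h := ((C.meas_real (C.hV.1 n)).comp measurable_fst).sub
    ((C.meas_T c (C.hV.1 n)).comp (measurable_snd (α := X) (β := X)))
  exact measurable_norm.comp h

theorem Q_exists {x y : X} (h : C.E x y) : ∃ k, C.Q x y (C.e k) := by
  obtain ⟨c, hc⟩ := code_exists C.hV (C.μ y) (C.μ x) (C.hac x y h) (1 / 100) (by norm_num)
  obtain ⟨k, rfl⟩ := C.he c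
  exact ⟨k, fun n => hc _ (C.hV.1 n)⟩

/-- Closeness of the two measures. -/
def F (x y : X) : Prop := ∀ n, |(C.μ x).real (C.V n) - (C.μ y).real (C.V n)| ≤ 1 / 50

theorem meas_F : MeasurableSet {p : X × X | C.F p.1 p.2} := by
  have : {p : X × X | C.F p.1 p.2} = ⋂ n, {p : X × X |
      |(C.μ p.1).real (C.V n) - (C.μ p.2).real (C.V n)| ≤ 1 / 50} := by
    ext p
    simp only [F, mem_iInter]
    rfl
  rw [this]
  refine MeasurableSet.iInter fun n => ?_
  refine measurableSet_le ?_ measurable_const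
  have h := ((C.meas_real (C.hV.1 n)).comp measurable_fst).sub
    ((C.meas_real (C.hV.1 n)).comp (measurable_snd (α := X) (β := X)))
  exact measurable_norm.comp h

theorem F_refl (x : X) : C.F x x := by
  intro n
  simp

theorem F_symm {x y : X} (h : C.F x y) : C.F y x := by
  intro n
  rw [abs_sub_comm]
  exact h n

theorem F_of_Q {x y z : X} {c : List (ℚ × ℕ)} (h1 : C.Q x z c) (h2 : C.Q y z c) : C.F x y := by
  intro n
  have a := h1 n
  have b := h2 n
  rw [abs_le] at *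
  constructor <;> linarith [a.1, a.2, b.1, b.2]

theorem E_of_F {x y : X} (h : C.F x y) : C.E x y := by
  by_contra hxy
  have h1 := C.hV.close (C.μ x) (C.μ y) (1 / 50) h {z | C.E x z} (C.meas_class x)
  have h2 : (C.μ x).real {z | C.E x z} = 1 := by
    rw [Measure.real, C.h1 x]
    rfl
  have h3 : (C.μ y).real {z | C.E x z} = 0 := by
    have hsub : {z | C.E x z} ⊆ {z | C.E y z}ᶜ := by
      intro z hz hz'
      exact hxy (C.hE.trans hz (C.hE.symm hz'))
    have h0 : C.μ y {z | C.E y z}ᶜ = 0 := by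
      rw [prob_compl_eq_zero_iff (C.meas_class y)]
      exact C.h1 y
    rw [Measure.real, measure_mono_null hsub h0]
    rfl
  rw [h2, h3] at h1
  norm_num at h1

/-- The colour classes. -/
def Xl (l : List ℕ) : Set X :=
  {x | 99 / 100 < (C.μ x).real {y | C.Q x y (C.e (rf C.V l y))}}

theorem meas_Qrf (l : List ℕ) :
    MeasurableSet {p : X × X | C.Q p.1 p.2 (C.e (rf C.V l p.2))} := by
  have : {p : X × X | C.Q p.1 p.2 (C.e (rf C.V l p.2))} =
      ⋃ k, ({p : X × X | rf C.V l p.2 = k} ∩ {p : X × X | C.Q p.1 p.2 (C.e k)}) := by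
    ext p
    rw [mem_iUnion]
    constructor
    · intro h
      exact ⟨rf C.V l p.2, rfl, h⟩
    · rintro ⟨k, h1, h2⟩
      have h1' : rf C.V l p.2 = k := h1
      show C.Q p.1 p.2 (C.e (rf C.V l p.2))
      rw [h1']
      exact h2
  rw [this]
  refine MeasurableSet.iUnion fun k => MeasurableSet.inter ?_ (C.meas_Q _)
  exact ((measurable_rf C.hV.1 l).comp measurable_snd) (measurableSet_singleton k)

theorem meas_Xl (l : List ℕ) : MeasurableSet (C.Xl l) := by
  refine measurableSet_lt measurable_const ?_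
  exact (C.meas_sec (C.meas_Qrf l)).ennreal_toReal

/-- Total version of the code predicate. -/
def PQ (x y : X) (k : ℕ) : Prop := C.Q x y (C.e k) ∨ ∀ j, ¬ C.Q x y (C.e j)

theorem PQ_ex (x y : X) : ∃ k, C.PQ x y k := by
  by_cases h : ∃ k, C.Q x y (C.e k)
  · obtain ⟨k, hk⟩ := h
    exact ⟨k, Or.inl hk⟩
  · push Not at h
    exact ⟨0, Or.inr h⟩

open scoped Classical in
/-- The least code. -/
noncomputable def kf (x y : X) : ℕ := Nat.find (C.PQ_ex x y)

theorem kf_spec {x y : X} (h : C.E x y) : C.Q x y (C.e (C.kf x y)) := by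
  classical
  rcases Nat.find_spec (C.PQ_ex x y) with h1 | h1
  · exact h1
  · obtain ⟨k, hk⟩ := C.Q_exists h
    exact absurd hk (h1 k)

theorem meas_kf (x : X) : Measurable (C.kf x) := by
  classical
  refine measurable_find (fun y => C.PQ_ex x y) fun k => ?_
  have hm : ∀ k, MeasurableSet {y | C.Q x y (C.e k)} := fun k =>
    measurable_prodMk_left (C.meas_Q (C.e k))
  have e : {y | C.PQ x y k} = {y | C.Q x y (C.e k)} ∪ ⋂ j, {y | C.Q x y (C.e j)}ᶜ := by
    ext y
    simp only [PQ, mem_union, mem_iInter, mem_compl_iff]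
    rfl
  rw [e]
  exact (hm k).union (MeasurableSet.iInter fun j => (hm j).compl)

theorem cover (x : X) : ∃ l, x ∈ C.Xl l := by
  obtain ⟨l, hl⟩ := rf_approx C.hV (C.μ x) (C.kf x) (C.meas_kf x) (1 / 100) (by norm_num)
  refine ⟨l, ?_⟩
  have hm : MeasurableSet {y | C.Q x y (C.e (rf C.V l y))} :=
    measurable_prodMk_left (C.meas_Qrf l)
  have hsub : {y | C.Q x y (C.e (rf C.V l y))}ᶜ ⊆
      {y | rf C.V l y ≠ C.kf x y} ∪ {y | C.E x y}ᶜ := by
    intro y hy
    by_cases hxy : C.E x y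
    · left
      intro hr
      apply hy
      show C.Q x y (C.e (rf C.V l y))
      rw [hr]
      exact C.kf_spec hxy
    · right
      exact hxy
  have h0 : C.μ x {z | C.E x z}ᶜ = 0 := by
    rw [prob_compl_eq_zero_iff (C.meas_class x)]
    exact C.h1 x
  have h2 : (C.μ x).real {y | C.Q x y (C.e (rf C.V l y))}ᶜ < 1 / 100 := by
    calc (C.μ x).real {y | C.Q x y (C.e (rf C.V l y))}ᶜ
        ≤ (C.μ x).real ({y | rf C.V l y ≠ C.kf x y} ∪ {y | C.E x y}ᶜ) := measureReal_mono hsub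
      _ ≤ (C.μ x).real {y | rf C.V l y ≠ C.kf x y} + (C.μ x).real {y | C.E x y}ᶜ :=
          measureReal_union_le _ _
      _ = (C.μ x).real {y | rf C.V l y ≠ C.kf x y} := by
          rw [Measure.real, Measure.real, h0]
          simp
      _ < 1 / 100 := hl
  rw [probReal_compl_eq_one_sub hm] at h2
  show 99 / 100 < (C.μ x).real {y | C.Q x y (C.e (rf C.V l y))}
  linarith

theorem dichotomy {l : List ℕ} {x y : X} (hx : x ∈ C.Xl l) (hy : y ∈ C.Xl l) :
    C.F x y ∨ ∃ n, 9 / 10 < (C.μ x).real (C.V n) ∧ (C.μ y).real (C.V n) < 1 / 10 := by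
  set Gx : Set X := {z | C.Q x z (C.e (rf C.V l z))} with hGx
  set Gy : Set X := {z | C.Q y z (C.e (rf C.V l z))} with hGy
  have hmx : MeasurableSet Gx := measurable_prodMk_left (C.meas_Qrf l)
  have hmy : MeasurableSet Gy := measurable_prodMk_left (C.meas_Qrf l)
  by_cases hne : (Gx ∩ Gy).Nonempty
  · obtain ⟨z, hz1, hz2⟩ := hne
    exact Or.inl (C.F_of_Q hz1 hz2)
  · right
    have hx' : 99 / 100 < (C.μ x).real Gx := hx
    have hy' : 99 / 100 < (C.μ y).real Gy := hy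
    have hsub : Gx ⊆ Gyᶜ := by
      intro z hz hz'
      exact hne ⟨z, hz, hz'⟩
    have h1 : (C.μ y).real Gx < 1 / 100 := by
      have h2 : (C.μ y).real Gx ≤ (C.μ y).real Gyᶜ := measureReal_mono hsub
      rw [probReal_compl_eq_one_sub hmy] at h2
      linarith
    obtain ⟨n, hn⟩ := C.hV.approx_real (C.μ x + C.μ y) Gx hmx (1 / 100) (by norm_num)
    rw [measureReal_add_apply] at hn
    have a1 := real_diff_le (C.μ x) Gx (C.V n) hmx (C.hV.1 n)
    have a2 := real_diff_le (C.μ y) Gx (C.V n) hmx (C.hV.1 n)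
    have a3 : 0 ≤ (C.μ x).real (Gx ∆ C.V n) := measureReal_nonneg
    have a4 : 0 ≤ (C.μ y).real (Gx ∆ C.V n) := measureReal_nonneg
    rw [abs_le] at a1 a2
    exact ⟨n, by linarith [a1.2], by linarith [a2.1]⟩

theorem F_trans {l : List ℕ} {x y z : X} (hx : x ∈ C.Xl l) (hz : z ∈ C.Xl l)
    (h1 : C.F x y) (h2 : C.F y z) : C.F x z := by
  rcases C.dichotomy hx hz with h | ⟨n, a, b⟩
  · exact h
  · exfalso
    have c := h1 n
    have d := h2 n
    rw [abs_le] at c d
    linarith [c.2, d.2]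

/-- Points whose cluster has positive measure. -/
def Zl (l : List ℕ) : Set X := {x | x ∈ C.Xl l ∧ C.μ x {y | y ∈ C.Xl l ∧ C.F x y} ≠ 0}

theorem meas_XF (l : List ℕ) : MeasurableSet {p : X × X | p.2 ∈ C.Xl l ∧ C.F p.1 p.2} :=
  (measurable_snd (C.meas_Xl l)).inter C.meas_F

theorem meas_Zl (l : List ℕ) : MeasurableSet (C.Zl l) := by
  refine MeasurableSet.inter (C.meas_Xl l) ?_
  have h := C.meas_sec (R := fun x y => y ∈ C.Xl l ∧ C.F x y) (C.meas_XF l)
  exact (h (measurableSet_singleton 0)).compl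

theorem XF_eq {l : List ℕ} {x y : X} (hx : x ∈ C.Xl l) (hy : y ∈ C.Xl l) (h : C.F x y) :
    {z | z ∈ C.Xl l ∧ C.F x z} = {z | z ∈ C.Xl l ∧ C.F y z} := by
  ext z
  constructor
  · rintro ⟨h1, h2⟩
    exact ⟨h1, C.F_trans hy h1 (C.F_symm h) h2⟩
  · rintro ⟨h1, h2⟩
    exact ⟨h1, C.F_trans hx h1 h h2⟩

theorem null_iff {x y : X} (h : C.E x y) (A : Set X) : C.μ x A = 0 ↔ C.μ y A = 0 :=
  ⟨fun h0 => C.hac y x (C.hE.symm h) h0, fun h0 => C.hac x y h h0⟩

theorem Zl_of_F {l : List ℕ} {x y : X} (hx : x ∈ C.Zl l) (hy : y ∈ C.Xl l) (h : C.F x y) :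
    y ∈ C.Zl l := by
  refine ⟨hy, fun h0 => hx.2 ?_⟩
  rw [C.XF_eq hx.1 hy h, C.null_iff (C.E_of_F h)]
  exact h0

theorem exists_Zl (x : X) : ∃ l, ∃ y, y ∈ C.Zl l ∧ C.E x y := by
  have h : ∃ l, C.μ x {y | y ∈ C.Xl l ∧ C.E x y} ≠ 0 := by
    by_contra hcon
    push Not at hcon
    have h0 : C.μ x (⋃ l, {y | y ∈ C.Xl l ∧ C.E x y}) = 0 := measure_iUnion_null hcon
    have h2 : {y | C.E x y} ⊆ ⋃ l, {y | y ∈ C.Xl l ∧ C.E x y} := by
      intro y hy
      obtain ⟨l, hl⟩ := C.cover y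
      exact mem_iUnion.2 ⟨l, hl, hy⟩
    have h3 := measure_mono_null h2 h0
    rw [C.h1 x] at h3
    exact one_ne_zero h3
  obtain ⟨l, hl⟩ := h
  have h2 : ∃ k, C.μ x {y | y ∈ C.Xl l ∧ C.E x y ∧ C.Q y x (C.e k)} ≠ 0 := by
    by_contra hcon
    push Not at hcon
    apply hl
    refine measure_mono_null ?_ (measure_iUnion_null hcon)
    rintro y ⟨h3, h4⟩
    obtain ⟨k, hk⟩ := C.Q_exists (C.hE.symm h4)
    exact mem_iUnion.2 ⟨k, h3, h4, hk⟩
  obtain ⟨k, hk⟩ := h2
  obtain ⟨y, hy1, hy2, hy3⟩ := nonempty_of_measure_ne_zero hk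
  refine ⟨l, y, ⟨hy1, fun h0 => hk ?_⟩, hy2⟩
  rw [C.null_iff hy2]
  refine measure_mono_null ?_ h0
  rintro z ⟨hz1, hz2, hz3⟩
  exact ⟨hz1, C.F_of_Q hy3 hz3⟩

theorem cl_eq {l : List ℕ} {x : X} (hx : x ∈ C.Zl l) :
    {y | y ∈ C.Zl l ∧ C.F x y} = {y | y ∈ C.Xl l ∧ C.F x y} := by
  ext y
  constructor
  · rintro ⟨h1, h2⟩
    exact ⟨h1.1, h2⟩
  · rintro ⟨h1, h2⟩
    exact ⟨C.Zl_of_F hx h1 h2, h2⟩

theorem meas_ZF (l : List ℕ) : MeasurableSet {p : X × X | p.2 ∈ C.Zl l ∧ C.F p.1 p.2} :=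
  (measurable_snd (C.meas_Zl l)).inter C.meas_F

theorem meas_ZFs (l : List ℕ) (x : X) : MeasurableSet {y | y ∈ C.Zl l ∧ C.F x y} :=
  measurable_prodMk_left (C.meas_ZF l)

/-- The measures restricted to the clusters. -/
noncomputable def ν (l : List ℕ) (x : X) : Measure X :=
  (C.μ x).restrict {y | y ∈ C.Zl l ∧ C.F x y}

theorem meas_ν (l : List ℕ) : Measurable (C.ν l) := by
  refine Measure.measurable_of_measurable_coe _ fun A hA => ?_
  have h := C.meas_sec (R := fun x y => y ∈ A ∧ (y ∈ C.Zl l ∧ C.F x y))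
    ((measurable_snd hA).inter (C.meas_ZF l))
  have e : (fun x => C.ν l x A) = fun x => C.μ x {y | y ∈ A ∧ (y ∈ C.Zl l ∧ C.F x y)} := by
    funext x
    rw [ν, Measure.restrict_apply hA]
    rfl
  rw [e]
  exact h

open scoped Classical in
/-- The invariants of the clusters. -/
noncomputable def q (l : List ℕ) (x : X) : ℕ → Bool
  | 0 => if x ∈ C.Zl l then true else false
  | (n + 1) => if C.μ x {y | (y ∈ C.Zl l ∧ C.F x y) ∧ 1 / 2 < (C.μ y).real (C.V n)} = 0 then false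
      else true

theorem meas_q (l : List ℕ) : Measurable (C.q l) := by
  classical
  rw [measurable_pi_iff]
  intro n
  cases n with
  | zero =>
    exact Measurable.ite (C.meas_Zl l) measurable_const measurable_const
  | succ n =>
    have hs : MeasurableSet {p : X × X | (p.2 ∈ C.Zl l ∧ C.F p.1 p.2) ∧
        1 / 2 < (C.μ p.2).real (C.V n)} := by
      refine (C.meas_ZF l).inter ?_
      exact measurableSet_lt measurable_const ((C.meas_real (C.hV.1 n)).comp measurable_snd)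
    have h := C.meas_sec (R := fun x y => (y ∈ C.Zl l ∧ C.F x y) ∧
      1 / 2 < (C.μ y).real (C.V n)) hs
    exact Measurable.ite (h (measurableSet_singleton 0)) measurable_const measurable_const

theorem q_zero_iff {l : List ℕ} {x : X} : C.q l x 0 = true ↔ x ∈ C.Zl l := by
  classical
  show (if x ∈ C.Zl l then true else false) = true ↔ x ∈ C.Zl l
  by_cases h : x ∈ C.Zl l <;> simp [h]

theorem q_eq_of_F {l : List ℕ} {x y : X} (hx : x ∈ C.Zl l) (hy : y ∈ C.Zl l) (h : C.F x y) :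
    C.q l x = C.q l y := by
  classical
  funext n
  cases n with
  | zero => rw [C.q_zero_iff.2 hx, C.q_zero_iff.2 hy]
  | succ n =>
    have hset : {z | z ∈ C.Zl l ∧ C.F x z} = {z | z ∈ C.Zl l ∧ C.F y z} := by
      rw [C.cl_eq hx, C.cl_eq hy, C.XF_eq hx.1 hy.1 h]
    have e : {z | (z ∈ C.Zl l ∧ C.F x z) ∧ 1 / 2 < (C.μ z).real (C.V n)} =
        {z | (z ∈ C.Zl l ∧ C.F y z) ∧ 1 / 2 < (C.μ z).real (C.V n)} := by
      ext z
      have hz := Set.ext_iff.1 hset z
      exact and_congr_left' hz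
    show (if C.μ x {z | (z ∈ C.Zl l ∧ C.F x z) ∧ 1 / 2 < (C.μ z).real (C.V n)} = 0 then false
      else true) = (if C.μ y {z | (z ∈ C.Zl l ∧ C.F y z) ∧ 1 / 2 < (C.μ z).real (C.V n)} = 0
      then false else true)
    rw [e]
    have := C.null_iff (C.E_of_F h)
      {z | (z ∈ C.Zl l ∧ C.F y z) ∧ 1 / 2 < (C.μ z).real (C.V n)}
    simp only [this]

theorem F_of_q_eq {l : List ℕ} {x y : X} (hx : x ∈ C.Zl l) (hy : y ∈ C.Zl l)
    (h : C.q l x = C.q l y) : C.F x y := by
  classical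
  rcases C.dichotomy hx.1 hy.1 with h1 | ⟨n, a, b⟩
  · exact h1
  · exfalso
    have e1 : {z | (z ∈ C.Zl l ∧ C.F x z) ∧ 1 / 2 < (C.μ z).real (C.V n)} =
        {z | z ∈ C.Zl l ∧ C.F x z} := by
      ext z
      constructor
      · exact fun hz => hz.1
      · intro hz
        refine ⟨hz, ?_⟩
        have := hz.2 n
        rw [abs_le] at this
        linarith [this.2]
    have e2 : {z | (z ∈ C.Zl l ∧ C.F y z) ∧ 1 / 2 < (C.μ z).real (C.V n)} = ∅ := by
      rw [eq_empty_iff_forall_notMem]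
      rintro z ⟨hz, hz2⟩
      have := hz.2 n
      rw [abs_le] at this
      linarith [this.1]
    have h2 : C.q l x (n + 1) = true := by
      show (if C.μ x {z | (z ∈ C.Zl l ∧ C.F x z) ∧ 1 / 2 < (C.μ z).real (C.V n)} = 0 then false
        else true) = true
      rw [e1, C.cl_eq hx, if_neg hx.2]
    have h3 : C.q l y (n + 1) = false := by
      show (if C.μ y {z | (z ∈ C.Zl l ∧ C.F y z) ∧ 1 / 2 < (C.μ z).real (C.V n)} = 0 then false
        else true) = false
      rw [e2, measure_empty, if_pos rfl]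
    rw [h, h3] at h2
    exact Bool.false_ne_true h2

theorem exists_sel (l : List ℕ) : ∃ s : X → X, Measurable s ∧
    (∀ x ∈ C.Zl l, s x ∈ C.Zl l ∧ C.F x (s x)) ∧
    ∀ x ∈ C.Zl l, ∀ y ∈ C.Zl l, C.F x y → s x = s y := by
  have k0 : ∀ x ∈ C.Zl l, C.ν l x univ ≠ 0 := by
    intro x hx
    rw [ν, Measure.restrict_apply_univ, C.cl_eq hx]
    exact hx.2
  have k1 : ∀ x ∈ C.Zl l, C.ν l x {y | C.q l y ≠ C.q l x} = 0 := by
    intro x hx
    rw [ν, Measure.restrict_apply' (C.meas_ZFs l x)]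
    have : {y | C.q l y ≠ C.q l x} ∩ {y | y ∈ C.Zl l ∧ C.F x y} = ∅ := by
      rw [eq_empty_iff_forall_notMem]
      rintro y ⟨hy1, hy2⟩
      exact hy1 (C.q_eq_of_F hx hy2.1 hy2.2).symm
    rw [this, measure_empty]
  have k2 : ∀ x ∈ C.Zl l, ∀ y ∈ C.Zl l, C.q l x = C.q l y → ∀ A, MeasurableSet A →
      (C.ν l x A = 0 ↔ C.ν l y A = 0) := by
    intro x hx y hy hxy A hA
    have hF := C.F_of_q_eq hx hy hxy
    rw [ν, ν, Measure.restrict_apply hA, Measure.restrict_apply hA, C.cl_eq hx, C.cl_eq hy,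
      C.XF_eq hx.1 hy.1 hF]
    exact C.null_iff (C.E_of_F hF) _
  obtain ⟨s, hs1, hs2, hs3⟩ := selector (C.ν l) (C.meas_ν l) (C.q l) (C.meas_q l) (C.Zl l)
    (C.meas_Zl l) k0 k1 k2
  have hmem : ∀ x ∈ C.Zl l, s x ∈ C.Zl l := by
    intro x hx
    rw [← C.q_zero_iff, hs2 x hx, C.q_zero_iff]
    exact hx
  refine ⟨s, hs1, fun x hx => ⟨hmem x hx, C.F_of_q_eq hx (hmem x hx) (hs2 x hx).symm⟩, ?_⟩
  intro x hx y hy hxy
  exact hs3 x hx y hy (C.q_eq_of_F hx hy hxy)

theorem exists_section : ∃ B : Set X, MeasurableSet B ∧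
    ∀ x : X, (B ∩ {y | C.E x y}).Countable ∧ (B ∩ {y | C.E x y}).Nonempty := by
  choose s hs1 hs2 hs3 using C.exists_sel
  refine ⟨⋃ l, {x | x ∈ C.Zl l ∧ s l x = x}, ?_, fun x => ⟨?_, ?_⟩⟩
  · refine MeasurableSet.iUnion fun l => (C.meas_Zl l).inter ?_
    let := upgradeStandardBorel X
    have hd : MeasurableSet {p : X × X | p.1 = p.2} := isClosed_diagonal.measurableSet
    exact ((hs1 l).prodMk measurable_id) hd
  · rw [iUnion_inter]
    refine countable_iUnion fun l => ?_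
    refine MapsTo.countable_of_injOn (f := fun y => C.kf y x) (t := univ)
      (mapsTo_univ _ _) ?_ (to_countable _)
    rintro y ⟨⟨hy1, hy2⟩, hy3⟩ z ⟨⟨hz1, hz2⟩, hz3⟩ hyz
    have hyz' : C.kf y x = C.kf z x := hyz
    have hq1 := C.kf_spec (C.hE.symm hy3)
    have hq2 := C.kf_spec (C.hE.symm hz3)
    rw [hyz'] at hq1
    have hF := C.F_of_Q hq1 hq2
    rw [← hy2, ← hz2]
    exact hs3 l y hy1 z hz1 hF
  · obtain ⟨l, y, hy, hxy⟩ := C.exists_Zl x
    obtain ⟨h1, h2⟩ := hs2 l y hy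
    refine ⟨s l y, mem_iUnion.2 ⟨l, h1, ?_⟩, ?_⟩
    · exact (hs3 l y hy (s l y) h1 h2).symm
    · exact C.hE.trans hxy (C.E_of_F h2)

end Ctx

/-- A Borel assignment of measure classes gives a complete countable Borel section. -/
theorem section_of_assignment (E : X → X → Prop) (hE : Equivalence E)
    (hEm : MeasurableSet {p : X × X | E p.1 p.2}) (μ : X → Measure X) (hμ : Measurable μ)
    (hp : ∀ x, IsProbabilityMeasure (μ x)) (h1 : ∀ x, μ x {y | E x y} = 1)
    (hac : ∀ x y, E x y → (μ x).AbsolutelyContinuous (μ y)) :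
    ∃ B : Set X, MeasurableSet B ∧
      ∀ x : X, (B ∩ {y | E x y}).Countable ∧ (B ∩ {y | E x y}).Nonempty := by
  obtain ⟨V, hV⟩ := exists_denseSeq X
  obtain ⟨e, he⟩ := exists_surjective_nat (List (ℚ × ℕ))
  exact Ctx.exists_section ⟨E, hE, hEm, μ, hμ, hp, h1, hac, V, hV, e, he⟩

end Pool.Agent.Helper890.Sec
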